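import Pool.Agent.Helper91.LC.Defs

/-!
# LC-6: Taylor coefficients of a normalised Bloch function
-/

namespace Pool.Agent.Helper33.LC

open Complex Metric Set
open Pool.Agent.Helper91.LC

/-- the tail of a power series convergent in the unit disc -/
theorem tail {g : ℕ → ℂ} {G : ℂ → ℂ}
    (h : ∀ z ∈ ball (0 : ℂ) 1, HasSum (fun n => g n * z ^ n) (G z)) (m : ℕ) :
    (∀ z ∈ ball (0 : ℂ) 1, Summable (fun n => ‖g (n + m) * z ^ n‖)) ∧
    DifferentiableOn ℂ (fun z => ∑' n, g (n + m) * z ^ n) (ball 0 1) ∧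
    ∀ z ∈ ball (0 : ℂ) 1, G z = ∑ n ∈ Finset.range m, g n * z ^ n +
      z ^ m * ∑' n, g (n + m) * z ^ n := by
  have hs : ∀ z ∈ ball (0 : ℂ) 1, Summable (fun n => ‖g (n + m) * z ^ n‖) := by
    intro z hz
    by_cases h0 : z = 0
    · refine summable_of_ne_finset_zero (s := {0}) ?_
      intro n hn
      have hn0 : n ≠ 0 := by simpa using hn
      simp [h0, hn0]
    · have h1 := ((h z hz).summable.norm).comp_injective (add_left_injective m)
      have h2 := h1.mul_right (‖z ^ m‖⁻¹)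
      refine h2.congr ?_
      intro n
      have hzm : ‖z ^ m‖ ≠ 0 := by
        simp [h0]
      simp only [Function.comp]
      rw [pow_add, ← mul_assoc, norm_mul _ (z ^ m)]
      field_simp
  refine ⟨hs, ?_, ?_⟩
  · intro z hz
    have hz1 : ‖z‖ < 1 := by simpa using hz
    obtain ⟨r, hr1, hr2⟩ := exists_between hz1
    have hr0 : 0 < r := lt_of_le_of_lt (norm_nonneg _) hr1
    have hrm : (r : ℂ) ∈ ball (0 : ℂ) 1 := by
      simp [abs_of_pos hr0, hr2]
    have hd : DifferentiableOn ℂ (fun z : ℂ => ∑' n, g (n + m) * z ^ n) (ball 0 r) := by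
      refine differentiableOn_tsum_of_summable_norm (hs r hrm) ?_ isOpen_ball ?_
      · intro n
        fun_prop
      · intro n w hw
        have hw1 : ‖w‖ ≤ r := by
          have : ‖w‖ < r := by simpa using hw
          exact this.le
        rw [norm_mul, norm_mul, norm_pow, norm_pow]
        have : ‖(r : ℂ)‖ = r := by simp [abs_of_pos hr0]
        rw [this]
        gcongr
    exact (hd.differentiableAt (isOpen_ball.mem_nhds (by simpa using hr1))).differentiableWithinAt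
  · intro z hz
    have h1 := (h z hz).summable.sum_add_tsum_nat_add m
    rw [(h z hz).tsum_eq] at h1
    rw [← h1, ← tsum_mul_left]
    congr 1
    refine tsum_congr ?_
    intro n
    rw [pow_add]
    ring

/-- extraction of a bound for the first nonconstant coefficient -/
theorem coef_le {c : ℂ} {k : ℕ} (hk : 0 < k) {G R : ℂ → ℂ} {C : ℝ}
    (hG : ∀ z : ℂ, ‖z‖ ≤ 1 / 3 → G z = 1 + c * z ^ k + z ^ (k + 1) * R z)
    (hR : ∀ z : ℂ, ‖z‖ ≤ 1 / 3 → ‖R z‖ ≤ C)
    (hb : ∀ z : ℂ, ‖z‖ ≤ 1 / 3 → ‖G z‖ * (1 - ‖z‖ ^ 2) ≤ 1) {t : ℝ} (ht : 0 < t)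
    (ht3 : t ≤ 1 / 3) : ‖c‖ * t ^ k ≤ t ^ 2 + 2 * t ^ 4 + C * t ^ (k + 1) := by
  obtain ⟨u, hu1, hu2⟩ : ∃ u : ℂ, ‖u‖ = 1 ∧ c * u ^ k = ‖c‖ := by
    by_cases h0 : c = 0
    · exact ⟨1, by simp, by simp [h0]⟩
    · obtain ⟨u, hu⟩ := IsAlgClosed.exists_pow_nat_eq ((‖c‖ : ℂ) / c) hk
      have hcn : ‖c‖ ≠ 0 := by simpa using h0
      refine ⟨u, ?_, ?_⟩
      · have h1 : ‖u‖ ^ k = 1 := by
          rw [← norm_pow, hu, norm_div, norm_real, norm_norm, div_self hcn]
        exact (pow_eq_one_iff_of_nonneg (norm_nonneg _) hk.ne').1 h1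
      · rw [hu]
        field_simp
  have hz : ‖(t : ℂ) * u‖ = t := by
    rw [norm_mul, hu1, norm_real, Real.norm_eq_abs, abs_of_pos ht, mul_one]
  have hz3 : ‖(t : ℂ) * u‖ ≤ 1 / 3 := by rw [hz]; exact ht3
  have h1 := hG _ hz3
  have h2 := hR _ hz3
  have h3 := hb _ hz3
  rw [hz] at h3
  have h4 : 1 + ‖c‖ * t ^ k - C * t ^ (k + 1) ≤ ‖G (t * u)‖ := by
    have h5 : (1 : ℂ) + c * (t * u) ^ k = ((1 + ‖c‖ * t ^ k : ℝ) : ℂ) := by
      rw [mul_pow]
      have : c * ((t : ℂ) ^ k * u ^ k) = (c * u ^ k) * (t : ℂ) ^ k := by ring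
      rw [this, hu2]
      push_cast
      ring
    have h6 : ‖(1 : ℂ) + c * (t * u) ^ k‖ = 1 + ‖c‖ * t ^ k := by
      rw [h5, norm_real, Real.norm_eq_abs, abs_of_pos]
      positivity
    have h7 : ‖((t : ℂ) * u) ^ (k + 1) * R (t * u)‖ ≤ t ^ (k + 1) * C := by
      rw [norm_mul, norm_pow, hz]
      gcongr
    have h8 : ‖(1 : ℂ) + c * (t * u) ^ k‖ ≤ ‖G (t * u)‖ + ‖((t : ℂ) * u) ^ (k + 1) * R (t * u)‖ := by
      rw [h1]
      have := norm_sub_norm_le ((1 : ℂ) + c * (t * u) ^ k)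
        (-(((t : ℂ) * u) ^ (k + 1) * R (t * u)))
      rw [sub_neg_eq_add, norm_neg] at this
      linarith
    rw [h6] at h8
    linarith
  have ht1 : 0 < 1 - t ^ 2 := by nlinarith
  have ht4 : (1 + t ^ 2 + 2 * t ^ 4) * (1 - t ^ 2) ≥ 1 := by
    have h9 : t ^ 2 ≤ 1 / 9 := by nlinarith
    have h10 : (1 + t ^ 2 + 2 * t ^ 4) * (1 - t ^ 2) = 1 + t ^ 4 * (1 - 2 * t ^ 2) := by ring
    rw [h10]
    have : 0 ≤ t ^ 4 * (1 - 2 * t ^ 2) := by
      apply mul_nonneg (by positivity)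
      linarith
    linarith
  have h11 : ‖G (t * u)‖ ≤ 1 + t ^ 2 + 2 * t ^ 4 := by
    have : ‖G (t * u)‖ * (1 - t ^ 2) ≤ (1 + t ^ 2 + 2 * t ^ 4) * (1 - t ^ 2) := by linarith
    exact le_of_mul_le_mul_right this ht1
  linarith [mul_comm C (t ^ (k + 1))]

theorem sqrt_bd : (0.8162 : ℝ) ≤ √(2 / 3) := by
  apply Real.le_sqrt_of_sq_le
  norm_num

theorem taylor {F : ℂ → ℂ} (h : DifferentiableOn ℂ F (ball 0 1)) :
    ∀ z ∈ ball (0 : ℂ) 1,
      HasSum (fun n : ℕ => (n.factorial : ℂ)⁻¹ * iteratedDeriv n F 0 * z ^ n) (F z) := by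
  intro z hz
  have h1 := hasSum_taylorSeries_on_ball h hz
  have h2 : (fun n : ℕ => (n.factorial : ℂ)⁻¹ • (z - 0) ^ n • iteratedDeriv n F 0) =
      fun n : ℕ => (n.factorial : ℂ)⁻¹ * iteratedDeriv n F 0 * z ^ n := by
    funext n
    simp only [smul_eq_mul, sub_zero]
    ring
  rw [h2] at h1
  exact h1

theorem coeffs {F : ℂ → ℂ} (hG : Good F) : ∃ (b3 b4 : ℂ) (M : ℂ → ℂ),
    ‖b3‖ ≤ 1 / 3 ∧ ‖b4‖ ≤ 1.38 ∧ DifferentiableOn ℂ M (ball 0 1) ∧
    (∀ z : ℂ, ‖z‖ ≤ 1 / 3 → ‖M z‖ ≤ 2.29) ∧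
    ∀ z ∈ ball (0 : ℂ) 1, F z = z + b3 * z ^ 3 + b4 * z ^ 4 + z ^ 5 * M z := by
  set a : ℕ → ℂ := fun n => (n.factorial : ℂ)⁻¹ * iteratedDeriv n F 0 with ha
  set g : ℕ → ℂ := fun n => (n.factorial : ℂ)⁻¹ * iteratedDeriv n (deriv F) 0 with hg
  have hdG : DifferentiableOn ℂ (deriv F) (ball 0 1) := hG.diff.deriv isOpen_ball
  have hF : ∀ z ∈ ball (0 : ℂ) 1, HasSum (fun n => a n * z ^ n) (F z) := taylor hG.diff
  have hFg : ∀ z ∈ ball (0 : ℂ) 1, HasSum (fun n => g n * z ^ n) (deriv F z) := taylor hdG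
  have hag : ∀ n, g n = (n + 1) * a (n + 1) := by
    intro n
    simp only [ha, hg]
    rw [iteratedDeriv_succ', Nat.factorial_succ]
    have : (n.factorial : ℂ) ≠ 0 := by exact_mod_cast n.factorial_ne_zero
    have h2 : ((n : ℂ) + 1) ≠ 0 := by exact_mod_cast n.succ_ne_zero
    push_cast
    field_simp
  have ha0 : a 0 = 0 := by simp [ha, hG.zero]
  have ha1 : a 1 = 1 := by simp [ha, hG.one]
  have hg0 : g 0 = 1 := by simp [hg, hG.one]
  have hb : ∀ z : ℂ, ‖z‖ ≤ 1 / 3 → ‖deriv F z‖ * (1 - ‖z‖ ^ 2) ≤ 1 := by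
    intro z hz
    exact hG.bd z (by simp; linarith)
  -- Cauchy bounds
  set t : ℝ := √(2 / 3) with ht
  have ht0 : 0.8162 ≤ t := sqrt_bd
  have htp : 0 < t := by linarith
  have ht2 : t ^ 2 = 2 / 3 := Real.sq_sqrt (by norm_num)
  have ht1 : t < 1 := by nlinarith
  have hgn : ∀ n, ‖g n‖ ≤ 3 / t ^ n := by
    intro n
    have hdc : DiffContOnCl ℂ (deriv F) (ball 0 t) := by
      refine DifferentiableOn.diffContOnCl_ball ?_ (closedBall_subset_ball ht1)
      exact hdG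
    have h1 := norm_iteratedDeriv_le_of_forall_mem_sphere_norm_le (C := 3) n htp hdc (by
      intro z hz
      have hz1 : ‖z‖ = t := by simpa using hz
      have h2 := hG.bd z (by simp [hz1, ht1])
      rw [hz1, ht2] at h2
      linarith)
    have hn : (0 : ℝ) < n.factorial := by exact_mod_cast n.factorial_pos
    simp only [hg]
    rw [norm_mul, norm_inv, norm_natCast]
    rw [inv_mul_le_iff₀ hn]
    calc _ ≤ _ := h1
      _ = _ := by ring
  have han : ∀ n, ‖a (n + 1)‖ ≤ 3 / ((n + 1) * t ^ n) := by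
    intro n
    have h1 := hgn n
    rw [hag, norm_mul] at h1
    have h2 : ‖((n : ℂ) + 1)‖ = n + 1 := by
      have : ((n : ℂ) + 1) = ((n + 1 : ℕ) : ℂ) := by push_cast; ring
      rw [this, norm_natCast]
      push_cast
      ring
    rw [h2] at h1
    have hn : (0 : ℝ) < n + 1 := by positivity
    rw [mul_comm, ← le_div_iff₀ hn] at h1
    calc _ ≤ _ := h1
      _ = _ := by rw [div_div, mul_comm]
  -- the expansions of the derivative
  have key : ∀ m : ℕ, ∃ (R : ℂ → ℂ) (C : ℝ), 0 ≤ C ∧ (∀ z : ℂ, ‖z‖ ≤ 1 / 3 → ‖R z‖ ≤ C) ∧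
      ∀ z : ℂ, ‖z‖ ≤ 1 / 3 → deriv F z = ∑ n ∈ Finset.range m, g n * z ^ n + z ^ m * R z := by
    intro m
    obtain ⟨hs, -, he⟩ := tail hFg m
    have h3 : (1 / 3 : ℂ) ∈ ball (0 : ℂ) 1 := by
      simp
      norm_num
    refine ⟨fun z => ∑' n, g (n + m) * z ^ n, ∑' n, ‖g (n + m) * (1 / 3) ^ n‖, ?_, ?_, ?_⟩
    · exact tsum_nonneg fun n => norm_nonneg _
    · intro z hz
      have hz1 : z ∈ ball (0 : ℂ) 1 := by simp; linarith
      refine (norm_tsum_le_tsum_norm (hs z hz1)).trans ?_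
      refine (hs z hz1).tsum_le_tsum ?_ (hs _ h3)
      intro n
      rw [norm_mul, norm_mul (g (n + m)), norm_pow, norm_pow]
      have : ‖(1 / 3 : ℂ)‖ = 1 / 3 := by simp
      rw [this]
      gcongr
    · intro z hz
      exact he z (by simp; linarith)
  have hg1 : g 1 = 0 := by
    obtain ⟨R, C, hC, hR, hE⟩ := key 2
    have h1 : ∀ t : ℝ, 0 < t → t ≤ 1 / 3 → ‖g 1‖ ≤ (3 + C) * t := by
      intro t ht ht3
      have h2 := coef_le (c := g 1) (k := 1) one_pos (G := deriv F) (R := R) (C := C) (by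
        intro z hz
        rw [hE z hz]
        simp [Finset.sum_range_succ, hg0]) hR hb ht ht3
      have h3 : t ^ 2 + 2 * t ^ 4 + C * t ^ (1 + 1) ≤ (3 + C) * t * t := by
        have : t ^ 4 ≤ t ^ 2 := by
          apply pow_le_pow_of_le_one ht.le (by linarith) (by norm_num)
        have h4 : (3 + C) * t * t = 3 * t ^ 2 + C * t ^ (1 + 1) := by ring
        rw [h4]
        linarith
      rw [pow_one] at h2
      exact le_of_mul_le_mul_right (h2.trans h3) ht
    have h2 : ‖g 1‖ ≤ 0 := by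
      by_contra hc
      push Not at hc
      have h3 := h1 (min (1 / 3) (‖g 1‖ / (2 * (3 + C)))) (by positivity) (min_le_left _ _)
      have h4 : (3 + C) * min (1 / 3) (‖g 1‖ / (2 * (3 + C))) ≤
          (3 + C) * (‖g 1‖ / (2 * (3 + C))) := by
        gcongr
        exact min_le_right _ _
      have h5 : (3 + C) * (‖g 1‖ / (2 * (3 + C))) = ‖g 1‖ / 2 := by
        field_simp
      linarith
    simpa using h2
  have ha2 : a 2 = 0 := by
    have := hag 1
    rw [hg1] at this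
    norm_num at this
    exact this
  have hg2 : ‖g 2‖ ≤ 1 := by
    obtain ⟨R, C, hC, hR, hE⟩ := key 3
    have h1 : ∀ t : ℝ, 0 < t → t ≤ 1 / 3 → ‖g 2‖ ≤ 1 + (2 + C) * t := by
      intro t ht ht3
      have h2 := coef_le (c := g 2) (k := 2) two_pos (G := deriv F) (R := R) (C := C) (by
        intro z hz
        rw [hE z hz]
        simp [Finset.sum_range_succ, hg0, hg1]) hR hb ht ht3
      have h3 : t ^ 2 + 2 * t ^ 4 + C * t ^ (2 + 1) ≤ (1 + (2 + C) * t) * t ^ 2 := by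
        have : t ^ 4 ≤ t ^ 3 := by
          apply pow_le_pow_of_le_one ht.le (by linarith) (by norm_num)
        have h4 : (1 + (2 + C) * t) * t ^ 2 = t ^ 2 + 2 * t ^ 3 + C * t ^ (2 + 1) := by ring
        rw [h4]
        linarith
      exact le_of_mul_le_mul_right (h2.trans h3) (by positivity)
    refine le_of_forall_pos_le_add ?_
    intro e he
    have h3 := h1 (min (1 / 3) (e / (2 + C))) (by positivity) (min_le_left _ _)
    have h4 : (2 + C) * min (1 / 3) (e / (2 + C)) ≤ (2 + C) * (e / (2 + C)) := by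
      gcongr
      exact min_le_right _ _
    have h5 : (2 + C) * (e / (2 + C)) = e := by
      field_simp
    linarith
  obtain ⟨hs, hd, he⟩ := tail hF 5
  refine ⟨a 3, a 4, fun z => ∑' n, a (n + 5) * z ^ n, ?_, ?_, hd, ?_, ?_⟩
  · have h1 := hag 2
    rw [h1, norm_mul] at hg2
    norm_num at hg2
    linarith
  · have h1 := han 3
    have h2 : t ^ 3 = t * (2 / 3) := by rw [← ht2]; ring
    rw [h2] at h1
    refine h1.trans ?_
    rw [div_le_iff₀ (by positivity)]
    push_cast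
    nlinarith
  · intro z hz
    have hz1 : z ∈ ball (0 : ℂ) 1 := by simp; linarith
    have h1 : ∀ n, ‖a (n + 5) * z ^ n‖ ≤ 1.35 * 0.4084 ^ n := by
      intro n
      have h2 := han (n + 4)
      have h3 : t ^ (n + 4) = t ^ n * (4 / 9) := by
        rw [pow_add]
        have : t ^ 4 = (t ^ 2) ^ 2 := by ring
        rw [this, ht2]
        norm_num
      rw [h3] at h2
      rw [norm_mul, norm_pow]
      have h4 : ‖z‖ ≤ 0.4084 * t := by
        have : 0.4084 * 0.8162 ≤ 0.4084 * t := by gcongr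
        norm_num at this hz ⊢
        linarith
      have h5 : ‖z‖ ^ n ≤ 0.4084 ^ n * t ^ n := by
        rw [← mul_pow]
        gcongr
      have h6 : 3 / (((n + 4 : ℕ) : ℝ) + 1) / (t ^ n * (4 / 9)) ≤ 1.35 / t ^ n := by
        rw [div_div, div_le_div_iff₀ (by positivity) (by positivity)]
        push_cast
        have hn : (0 : ℝ) ≤ n := by positivity
        have htn : 0 < t ^ n := by positivity
        nlinarith [mul_nonneg hn htn.le]
      have h7 : ‖a (n + 5)‖ ≤ 1.35 / t ^ n := by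
        refine h2.trans (le_trans (le_of_eq ?_) h6)
        rw [div_div]
      calc ‖a (n + 5)‖ * ‖z‖ ^ n ≤ 1.35 / t ^ n * (0.4084 ^ n * t ^ n) := by gcongr
        _ = _ := by field_simp
    have h2 : Summable fun n : ℕ => (1.35 : ℝ) * 0.4084 ^ n :=
      (summable_geometric_of_lt_one (by norm_num) (by norm_num)).mul_left _
    refine (norm_tsum_le_tsum_norm (hs z hz1)).trans ?_
    refine ((hs z hz1).tsum_le_tsum h1 h2).trans ?_
    rw [tsum_mul_left, tsum_geometric_of_lt_one (by norm_num) (by norm_num)]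
    norm_num
  · intro z hz
    rw [he z hz]
    simp [Finset.sum_range_succ, ha0, ha1, ha2]

end Pool.Agent.Helper33.LC
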